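import Pool.Agent.Helper73.FU.Stmts
import Pool.Agent.Helper73.MI.Asm
import Pool.Agent.Helper78.MI.Cem

/-!
# The homothety problem for the body of buoyancy: assembly (project MP_a2630c_FU)
-/

open MeasureTheory Set Metric Real Filter Topology
open scoped RealInnerProductSpace ENNReal
open Pool.Agent.Helper16.Buoy (E cap IsEllipsoid Homothetic buoyancyBody)
open Pool.Agent.Helper73.HV (supp)
open Pool.Agent.Helper73.LR (CB vol GG Sol aff)
open Pool.Agent.Helper73.SY (CS)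

namespace Pool.Agent.Helper73.FU

/-- The functions `kk` of `F_*` and of its transform. -/
theorem subf {n : ℕ} {K : Set (E n)} {δ lam : ℝ} {F τ Z : E n → ℝ} (hCS : CS K δ lam)
    (hB : Bs K δ lam F τ) (hZ : ∀ v, Z (YY K lam F τ v) = xx K lam F τ v)
    (hle : ∀ y ∈ interior K, F y ≤ Z y ^ 2) (v y : E n) (hy : y ∈ interior K) :
    inner ℝ v y + √(F y) ≤ inner ℝ v (YY K lam F τ v) + xx K lam F τ v := by
  obtain ⟨v', rfl⟩ := hB.Ysurj y hy
  have h1 : √(F (YY K lam F τ v')) ≤ xx K lam F τ v' := by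
    rw [← hZ v']
    have h2 := hle _ hy
    have h3 : 0 ≤ Z (YY K lam F τ v') := by
      rw [hZ v']
      exact (hB.xpos v').le
    calc √(F (YY K lam F τ v')) ≤ √(Z (YY K lam F τ v') ^ 2) := Real.sqrt_le_sqrt h2
      _ = Z (YY K lam F τ v') := Real.sqrt_sq h3
  have h4 := hB.grad v' v
  have h5 := hB.val v'
  have h6 := hB.val v
  rw [inner_sub_left] at h4
  have h7 : lam * (inner ℝ v (YY K lam F τ v') + xx K lam F τ v') ≤
      lam * (inner ℝ v (YY K lam F τ v) + xx K lam F τ v) := by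
    rw [← h6]
    refine le_trans (le_of_eq ?_) h4
    rw [h5]
    ring
  have h8 := le_of_mul_le_mul_left h7 hCS.lpos
  linarith

/-- A centred solution is an ellipsoid. -/
theorem cs_ell (PWF : S_pwf) (SUP : S_sup) (LEV : S_lev) (BAS : S_bas) (LB : S_lb) (SD : S_sd)
    (CN : S_cn) (FS : S_fs) (CMP : S_cmp) (END : S_end) {n : ℕ} (hn : 1 ≤ n) {K : Set (E n)}
    {δ lam : ℝ} (hCS : CS K δ lam) : IsEllipsoid K := by
  have hAF := (FS hn hCS.cb).1
  obtain ⟨τ, hτ⟩ := LEV hCS.cb hCS.dpos hCS.dlt hAF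
  have hB := BAS hCS hAF hτ
  obtain ⟨Z, hZ, hZc⟩ := CN hCS hAF hτ hB (SD hCS hAF hτ)
  have hle := (FS hn hCS.cb).2 (fun y => Z y ^ 2) (fun y _ => sq_nonneg _) hZc
  have hsub := subf hCS hB hZ hle
  have hlb := LB hCS hAF hτ
  refine END hCS.cb hAF.pos fun w hw => ?_
  obtain ⟨-, p2, -, p4, p5, C, p6⟩ := PWF hCS.cb hw
  have hC : ∃ C : ℝ, ∀ y ∈ interior K, √(pw K w y) ≤ C :=
    ⟨√C, fun y hy => Real.sqrt_le_sqrt (p6 y (interior_subset hy)).2⟩
  obtain ⟨c, hc, h⟩ := CMP hCS hAF hτ hB (fun v y hy => hsub v y hy) hlb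
    (fun y hy => Real.sqrt_pos.2 (p2 y hy).2) (p4.sqrt)
    (p5.subset interior_subset hCS.cb.conv.interior) hC (SUP hCS hw)
  refine ⟨c ^ 2, by positivity, fun y hy => ?_⟩
  have h1 := h y hy
  have h2 := (p2 y hy).2
  have h3 := hAF.pos y hy
  calc pw K w y = √(pw K w y) ^ 2 := (Real.sq_sqrt h2.le).symm
    _ = (c * √(Fs K y)) ^ 2 := by rw [h1]
    _ = c ^ 2 * Fs K y := by rw [mul_pow, Real.sq_sqrt h3.le]

/-- The theorem. -/
theorem full_of (hcs : ∀ {n : ℕ}, 1 ≤ n → ∀ {K : Set (E n)} {δ lam : ℝ}, CS K δ lam → IsEllipsoid K)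
    {n : ℕ} (hn : 1 ≤ n) {K : Set (E n)} {d : ℝ} (h1 : Convex ℝ K)
    (h2 : IsCompact K) (h3 : (interior K).Nonempty) (hd0 : 0 < d)
    (hd1 : ENNReal.ofReal d < volume K) (hh : Homothetic K (buoyancyBody K d)) :
    IsEllipsoid K := by
  have hK : CB K := ⟨h1, h2, h3⟩
  have hv := Pool.Agent.Helper96.LR.vol_pos hK
  have hd1' : d < vol K := by
    rw [← Pool.Agent.Helper73.LR.ofReal_vol hK] at hd1
    exact (ENNReal.ofReal_lt_ofReal_iff hv).1 hd1
  have hs := Pool.Agent.Helper73.LR.sol_of_density Pool.Agent.Helper73.LR.loc_sol_of_hom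
    hn hK hd0 hd1' hh
  rw [div_mul_cancel₀ _ hv.ne'] at hs
  obtain ⟨c, lam, hCS, -, -⟩ := Pool.Agent.Helper78.MI.cem hn hK hd0 hd1' hs
  have hE := hcs hn hCS
  have e2 : (fun x => x + c) '' K =
    aff (ContinuousLinearEquiv.refl ℝ (E n)) c '' K := rfl
  rw [e2] at hE
  exact Pool.Agent.Helper96.LR.ell_aff _ c hE

end Pool.Agent.Helper73.FU
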