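import Pool.Agent.Helper73.SY.Base

/-!
# The homothety problem for the body of buoyancy, all convex bodies: definitions
(project MP_a2630c_FU; paper proof by helper94 and helper61)

Blueprint: `MP_a2630c_FU_blueprint.md` in the team store.
-/

open MeasureTheory Set Metric Real Filter Topology
open scoped RealInnerProductSpace ENNReal
open Pool.Agent.Helper16.Buoy (E cap IsEllipsoid Homothetic buoyancyBody)
open Pool.Agent.Helper73.HV (supp)
open Pool.Agent.Helper73.LR (CB vol GG Sol aff)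
open Pool.Agent.Helper73.SY (CS)

namespace Pool.Agent.Helper73.FU

/-- Mean of `(g cos φ - c)₊` for `φ` uniform in `[0, π]`. -/
noncomputable def jj (g c : ℝ) : ℝ := (1 / π) * ∫ φ in (0 : ℝ)..π, max (g * cos φ - c) 0

/-- Proportion of the `φ` in `[0, π]` with `g cos φ > c` (for `0 < g`). -/
noncomputable def pp (g c : ℝ) : ℝ := arccos (c / g) / π

variable {n : ℕ}

/-- Integral over `K` of `jj (G y) (τ - ⟨v, y⟩)`. -/
noncomputable def JJ (K : Set (E n)) (G : E n → ℝ) (v : E n) (τ : ℝ) : ℝ :=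
  ∫ y in K, jj (G y) (τ - inner ℝ v y)

/-- The value of the maximisation problem with normal direction `(v, 1)`, `G = √F`. -/
noncomputable def kk (K : Set (E n)) (δ : ℝ) (F : E n → ℝ) (v : E n) : ℝ :=
  ⨅ τ : ℝ, (JJ K (fun y => √(F y)) v τ + δ * τ)

/-- `F` minus the square of the height of the hyperplane with normal `(v, 1)` and level `τ`. -/
noncomputable def Wf (F : E n → ℝ) (v : E n) (τ : ℝ) (y : E n) : ℝ := F y - (τ - inner ℝ v y) ^ 2

/-- Admissible functions on `K`. -/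
structure AF (K : Set (E n)) (F : E n → ℝ) : Prop where
  pos : ∀ y ∈ interior K, 0 < F y
  conc : ConcaveOn ℝ (interior K) (fun y => F y + ‖y‖ ^ 2)
  bdd : ∃ C : ℝ, ∀ y ∈ interior K, F y ≤ C

/-- The optimal density for the normal direction `(v, 1)` and the level `τ`. -/
noncomputable def rr (F : E n → ℝ) (v : E n) (τ : ℝ) (y : E n) : ℝ := pp (√(F y)) (τ - inner ℝ v y)

/-- The optimal levels. -/
structure Lev (K : Set (E n)) (δ : ℝ) (F : E n → ℝ) (τ : E n → ℝ) : Prop where
  cont : Continuous τ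
  lev : ∀ v, ∫ y in K, rr F v (τ v) y = δ
  eq : ∀ v, kk K δ F v = JJ K (fun y => √(F y)) v (τ v) + δ * τ v
  le : ∀ v t, kk K δ F v ≤ JJ K (fun y => √(F y)) v t + δ * t
  ne : ∀ v, ∃ y ∈ interior K, 0 < Wf F v (τ v) y

/-- Base point. -/
noncomputable def YY (K : Set (E n)) (lam : ℝ) (F : E n → ℝ) (τ : E n → ℝ) (v : E n) : E n :=
  lam⁻¹ • ∫ y in K, rr F v (τ v) y • y

/-- Height over the base point. -/
noncomputable def xx (K : Set (E n)) (lam : ℝ) (F : E n → ℝ) (τ : E n → ℝ) (v : E n) : ℝ :=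
  (π * lam)⁻¹ * ∫ y in K, √(Wf F v (τ v) y)

/-- Properties of base points and heights. -/
structure Bs (K : Set (E n)) (δ lam : ℝ) (F : E n → ℝ) (τ : E n → ℝ) : Prop where
  Yc : Continuous (YY K lam F τ)
  xc : Continuous (xx K lam F τ)
  Yint : ∀ v, YY K lam F τ v ∈ interior K
  Ysurj : ∀ y ∈ interior K, ∃ v, YY K lam F τ v = y
  xpos : ∀ v, 0 < xx K lam F τ v
  val : ∀ v, kk K δ F v = lam * (inner ℝ v (YY K lam F τ v) + xx K lam F τ v)
  grad : ∀ v v', kk K δ F v + lam * inner ℝ (v' - v) (YY K lam F τ v) ≤ kk K δ F v'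

/-- The quadratic form `⟨M⁻¹ a, a⟩`, `M = 1 + v ⊗ v`. -/
noncomputable def qq (v a : E n) : ℝ := ‖a‖ ^ 2 - inner ℝ v a ^ 2 / (1 + ‖v‖ ^ 2)

/-- `F_*`: the smallest `F ≥ 0` on `K` with `F + |y|²` concave. -/
noncomputable def Fs (K : Set (E n)) (y : E n) : ℝ :=
  sInf {r : ℝ | ∃ (a : E n) (c : ℝ), (∀ x ∈ K, ‖x‖ ^ 2 ≤ inner ℝ a x + c) ∧
    r = inner ℝ a y + c - ‖y‖ ^ 2}

/-- Distance (with multiplicity `w`) to the boundary of `K` in the direction `w`. -/
noncomputable def up (K : Set (E n)) (w y : E n) : ℝ := sSup {s : ℝ | y + s • w ∈ K}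

/-- Product of the two distances to the boundary of `K` on the line of direction `w`. -/
noncomputable def pw (K : Set (E n)) (w y : E n) : ℝ := up K w y * up K (-w) y

end Pool.Agent.Helper73.FU
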