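import Pool.Agent.Helper73.FU.Asm
import Pool.Agent.Helper34.FU.Jj
import Pool.Agent.Helper34.FU.Arc
import Pool.Agent.Helper23.FU.Pwf
import Pool.Agent.Helper23.FU.Cn
import Pool.Agent.Helper61.FU.Fea
import Pool.Agent.Helper61.FU.Lev
import Pool.Agent.Helper61.FU.Bas
import Pool.Agent.Helper9.FU.Sup
import Pool.Agent.Helper82.FU.LB
import Pool.Agent.Helper60.FU.SBl
import Pool.Agent.Helper94.FU.SD
import Pool.Agent.Helper56.FU.SFs
import Pool.Agent.Helper79.FU.Cmp
import Pool.Agent.Helper43.FU.SEnd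

/-!
# The homothety problem for the body of buoyancy: final assembly (project MP_a2630c_FU)
-/

open MeasureTheory Set Metric Real
open scoped RealInnerProductSpace ENNReal
open Pool.Agent.Helper16.Buoy (E cap IsEllipsoid Homothetic buoyancyBody)
open Pool.Agent.Helper73.SY (CS)

namespace Pool.Agent.Helper73.FU

/-- A centred solution is an ellipsoid. -/
theorem cs_ellipsoid {n : ℕ} (hn : 1 ≤ n) {K : Set (E n)} {δ lam : ℝ} (hCS : CS K δ lam) :
    IsEllipsoid K :=
  cs_ell Pool.Agent.Helper23.FU.s_pwf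
    (Pool.Agent.Helper9.FU.s_sup Pool.Agent.Helper34.FU.Row.s_jj Pool.Agent.Helper34.FU.Row.s_arc
      Pool.Agent.Helper23.FU.s_pwf Pool.Agent.Helper61.FU.s_fea)
    (Pool.Agent.Helper61.FU.s_lev Pool.Agent.Helper34.FU.Row.s_jj)
    (Pool.Agent.Helper61.FU.s_bas Pool.Agent.Helper34.FU.Row.s_jj)
    Pool.Agent.Helper82.FU.s_lb (Pool.Agent.Helper94.FU.s_sd Pool.Agent.Helper60.FU.s_bl)
    Pool.Agent.Helper23.FU.s_cn Pool.Agent.Helper56.FU.s_fs
    Pool.Agent.Helper79.FU.cmp Pool.Agent.Helper43.FU.s_end hn hCS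

/-- The theorem. -/
theorem all_bodies {n : ℕ} (hn : 1 ≤ n) {K : Set (E n)} {d : ℝ} (h1 : Convex ℝ K)
    (h2 : IsCompact K) (h3 : (interior K).Nonempty) (hd0 : 0 < d)
    (hd1 : ENNReal.ofReal d < volume K) (hh : Homothetic K (buoyancyBody K d)) :
    IsEllipsoid K :=
  full_of cs_ellipsoid hn h1 h2 h3 hd0 hd1 hh

end Pool.Agent.Helper73.FU
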