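import Pool.Agent.Helper73.FU.Defs

/-!
# Statements of the modules (project MP_a2630c_FU)
-/

open MeasureTheory Set Metric Real Filter Topology
open scoped RealInnerProductSpace ENNReal
open Pool.Agent.Helper16.Buoy (E cap IsEllipsoid Homothetic buoyancyBody)
open Pool.Agent.Helper73.HV (supp)
open Pool.Agent.Helper73.LR (CB vol GG Sol aff)
open Pool.Agent.Helper73.SY (CS)

namespace Pool.Agent.Helper73.FU

/-! ## One variable -/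

/-- (J) The function `jj`. -/
def S_jj : Prop :=
  (∀ g c : ℝ, 0 < g → jj g c = (√(g ^ 2 - c ^ 2) - c * arccos (c / g)) / π) ∧
  (∀ g c ρ : ℝ, 0 ≤ g → 0 ≤ ρ → ρ ≤ 1 → g * sin (π * ρ) / π - c * ρ ≤ jj g c) ∧
  (∀ g c : ℝ, 0 < g → g * sin (π * pp g c) = √(g ^ 2 - c ^ 2) ∧
    jj g c = g * sin (π * pp g c) / π - c * pp g c) ∧
  (∀ g : ℝ, 0 ≤ g → ConvexOn ℝ univ (jj g) ∧ Antitone (jj g)) ∧
  (∀ g c c' : ℝ, 0 ≤ g → |jj g c - jj g c'| ≤ |c - c'|) ∧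
  (∀ g c : ℝ, 0 ≤ g → 0 ≤ jj g c ∧ -c ≤ jj g c ∧ jj g c ≤ max (g - c) 0) ∧
  (∀ g c : ℝ, 0 < g → HasDerivAt (jj g) (-pp g c) c) ∧
  (∀ g c h : ℝ, 0 < g →
    IntervalIntegrable (fun r => (1 - |r|) * (√(g ^ 2 - (c + r * h) ^ 2))⁻¹) volume (-1) 1 ∧
    jj g (c + h) + jj g (c - h) - 2 * jj g c =
      h ^ 2 / π * ∫ r in (-1 : ℝ)..1, (1 - |r|) * (√(g ^ 2 - (c + r * h) ^ 2))⁻¹) ∧
  Continuous (fun p : ℝ × ℝ => jj p.1 p.2)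

/-- (ARC) Archimedes: the coordinates of a uniform point of the sphere. -/
def S_arc : Prop := ∀ r p s c : ℝ, 0 ≤ r → 0 ≤ s → p ^ 2 + s ^ 2 = 1 →
  ∫ η in (-r)..r, jj (s * √(r ^ 2 - η ^ 2)) (c - p * η) = ∫ η in (-r)..r, max (η - c) 0

/-- (L1) Fibre inequality. -/
def S_l1 : Prop := ∀ (r : ℝ) (ρ : ℝ → ℝ), 0 ≤ r →
  AEStronglyMeasurable ρ (volume.restrict (Icc (-r) r)) → (∀ η, 0 ≤ ρ η ∧ ρ η ≤ 1) →
  √((∫ η in Icc (-r) r, ρ η * η) ^ 2 +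
      (∫ η in Icc (-r) r, √(r ^ 2 - η ^ 2) * sin (π * ρ η) / π) ^ 2) ≤
    (∫ η in Icc (-r) r, ρ η) * r - (∫ η in Icc (-r) r, ρ η) ^ 2 / 2

/-! ## Chords -/

/-- (PWF) The product of the distances to the boundary. -/
def S_pwf : Prop := ∀ {n : ℕ} {K : Set (E n)} {w : E n}, CB K → ‖w‖ = 1 →
  (∀ y ∈ K, ∀ s : ℝ, y + s • w ∈ K ↔ -up K (-w) y ≤ s ∧ s ≤ up K w y) ∧
  (∀ y ∈ interior K, 0 < up K w y ∧ 0 < pw K w y) ∧
  (∀ y ∈ K, ∀ s : ℝ, y + s • w ∈ K →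
    pw K w (y + s • w) = (up K w y - s) * (up K (-w) y + s)) ∧
  ContinuousOn (pw K w) (interior K) ∧
  ConcaveOn ℝ K (fun y => √(pw K w y)) ∧
  (∃ C : ℝ, ∀ y ∈ K, 0 ≤ pw K w y ∧ pw K w y ≤ C)

/-- Feasible densities for the point `y`. -/
structure Fea {n : ℕ} (K : Set (E n)) (δ lam : ℝ) (ρ : E n → ℝ) (y : E n) : Prop where
  meas : AEStronglyMeasurable ρ (volume.restrict K)
  r0 : ∀ x, 0 ≤ ρ x
  r1 : ∀ x, ρ x ≤ 1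
  mass : ∫ x in K, ρ x = δ
  mom : ∫ x in K, ρ x • x = lam • y

/-- (FEA) Solutions and densities. -/
def S_fea : Prop := ∀ {n : ℕ} {K : Set (E n)} {δ lam : ℝ}, CS K δ lam → ∀ {ρ : E n → ℝ},
  AEStronglyMeasurable ρ (volume.restrict K) → (∀ x, 0 ≤ ρ x) → (∀ x, ρ x ≤ 1) →
  ∫ x in K, ρ x = δ →
  lam⁻¹ • (∫ x in K, ρ x • x) ∈ K ∧
    (lam⁻¹ • (∫ x in K, ρ x • x) ∉ interior K → ∀ᵐ x ∂(volume.restrict K), ρ x = 0 ∨ ρ x = 1)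

/-- The supersolution property. -/
def Sup {n : ℕ} (K : Set (E n)) (δ lam : ℝ) (g : E n → ℝ) : Prop :=
  ∀ (ρ : E n → ℝ) (y : E n), y ∈ interior K → Fea K δ lam ρ y →
    ∫ x in K, g x * sin (π * ρ x) ≤ π * lam * g y

/-- (SUP) The square root of the product of the distances is a supersolution. -/
def S_sup : Prop := ∀ {n : ℕ} {K : Set (E n)} {δ lam : ℝ} {w : E n}, CS K δ lam → ‖w‖ = 1 →
  Sup K δ lam (fun y => √(pw K w y))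

/-! ## Levels and base points -/

/-- (LEV) Levels. -/
def S_lev : Prop := ∀ {n : ℕ} {K : Set (E n)} {δ : ℝ} {F : E n → ℝ}, CB K → 0 < δ → δ < vol K →
  AF K F → ∃ τ : E n → ℝ, Lev K δ F τ

/-- (BAS) Base points and heights. -/
def S_bas : Prop := ∀ {n : ℕ} {K : Set (E n)} {δ lam : ℝ} {F τ : E n → ℝ}, CS K δ lam → AF K F →
  Lev K δ F τ → Bs K δ lam F τ

/-- (LB) The mass of the sections in a compact set. -/
def S_lb : Prop := ∀ {n : ℕ} {K : Set (E n)} {δ lam : ℝ} {F τ : E n → ℝ}, CS K δ lam → AF K F →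
  Lev K δ F τ → ∃ (Q : Set (E n)) (c : ℝ), IsCompact Q ∧ Q ⊆ interior K ∧ 0 < c ∧
    ∀ v, c * ∫ y in K, √(Wf F v (τ v) y) ≤ ∫ y in Q, √(Wf F v (τ v) y)

/-! ## The key lemma -/

/-- (BL) Dimensional Brascamp-Lieb inequality. -/
def S_bl : Prop := ∀ {n : ℕ} {K : Set (E n)} {W : E n → ℝ} {v a : E n} {γ : ℝ}, CB K →
  ConcaveOn ℝ (interior K) (fun y => W y + ‖y‖ ^ 2 + inner ℝ v y ^ 2) →
  (∃ C : ℝ, ∀ y ∈ interior K, W y ≤ C) →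
  IntegrableOn (fun y => (√(W y))⁻¹ * (inner ℝ a y - γ) ^ 2) K ∧
  (∫ y in K, (√(W y))⁻¹ * (inner ℝ a y - γ) ^ 2) * (∫ y in K, √(W y) ^ 3) ≤
    qq v a * (∫ y in K, √(W y)) * (∫ y in K, √(W y) ^ 3) +
      3 * (∫ y in K, √(W y) * (inner ℝ a y - γ)) ^ 2

/-- (SD) Second differences of `kk`. -/
def S_sd : Prop := ∀ {n : ℕ} {K : Set (E n)} {δ lam : ℝ} {F τ : E n → ℝ}, CS K δ lam → AF K F →
  Lev K δ F τ → ∀ (v a : E n) (ε : ℝ), 0 < ε → ∃ η : ℝ, 0 < η ∧ ∀ h : ℝ, |h| ≤ η →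
    kk K δ F (v + h • a) + kk K δ F (v - h • a) - 2 * kk K δ F v ≤
      h ^ 2 * (lam * xx K lam F τ v * qq v a + ε)

/-- (CN) Concavity of the square of the height plus the square of the norm. -/
def S_cn : Prop := ∀ {n : ℕ} {K : Set (E n)} {δ lam : ℝ} {F τ : E n → ℝ}, CS K δ lam → AF K F →
  Lev K δ F τ → Bs K δ lam F τ →
  (∀ (v a : E n) (ε : ℝ), 0 < ε → ∃ η : ℝ, 0 < η ∧ ∀ h : ℝ, |h| ≤ η →
    kk K δ F (v + h • a) + kk K δ F (v - h • a) - 2 * kk K δ F v ≤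
      h ^ 2 * (lam * xx K lam F τ v * qq v a + ε)) →
  ∃ Z : E n → ℝ, (∀ v, Z (YY K lam F τ v) = xx K lam F τ v) ∧
    ConcaveOn ℝ (interior K) (fun y => Z y ^ 2 + ‖y‖ ^ 2)

/-- (FS) The function `F_*`. -/
def S_fs : Prop := ∀ {n : ℕ} {K : Set (E n)}, 1 ≤ n → CB K → AF K (Fs K) ∧
  ∀ H : E n → ℝ, (∀ y ∈ interior K, 0 ≤ H y) →
    ConcaveOn ℝ (interior K) (fun y => H y + ‖y‖ ^ 2) → ∀ y ∈ interior K, Fs K y ≤ H y

/-! ## Comparison and conclusion -/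

/-- (CMP) Comparison. -/
def S_cmp : Prop := ∀ {n : ℕ} {K : Set (E n)} {δ lam : ℝ} {F τ g : E n → ℝ}, CS K δ lam →
  AF K F → Lev K δ F τ → Bs K δ lam F τ →
  (∀ v, ∀ y ∈ interior K, inner ℝ v y + √(F y) ≤
    inner ℝ v (YY K lam F τ v) + xx K lam F τ v) →
  (∃ (Q : Set (E n)) (c : ℝ), IsCompact Q ∧ Q ⊆ interior K ∧ 0 < c ∧
    ∀ v, c * ∫ y in K, √(Wf F v (τ v) y) ≤ ∫ y in Q, √(Wf F v (τ v) y)) →
  (∀ y ∈ interior K, 0 < g y) → ContinuousOn g (interior K) → ConcaveOn ℝ (interior K) g →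
  (∃ C : ℝ, ∀ y ∈ interior K, g y ≤ C) → Sup K δ lam g →
  ∃ c : ℝ, 0 < c ∧ ∀ y ∈ interior K, g y = c * √(F y)

/-- (END) Conclusion. -/
def S_end : Prop := ∀ {n : ℕ} {K : Set (E n)} {F : E n → ℝ}, CB K → (∀ y ∈ interior K, 0 < F y) →
  (∀ w : E n, ‖w‖ = 1 → ∃ c : ℝ, 0 < c ∧ ∀ y ∈ interior K, pw K w y = c * F y) → IsEllipsoid K

end Pool.Agent.Helper73.FU
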